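import Pool.Agent.Helper39.Uct.Goals2

/-!
# Packets GV, ACC, GI: virtually polycyclic groups
-/

namespace Pool.Agent.Helper43.Uct

open Pool.Agent.Helper39.Uct

theorem fg_of_map_injective {Q' Q : Type} [Group Q'] [Group Q] (f : Q' →* Q)
    (hf : Function.Injective f) (H : Subgroup Q') (h : (H.map f).FG) : H.FG := by
  rw [Subgroup.fg_iff_submonoid_fg] at h ⊢
  have h2 : (H.toSubmonoid.map f).FG := h
  exact Submonoid.FG.map_injective f hf h2

theorem vpc_of_injective {Q' Q : Type} [Group Q'] [Group Q] (f : Q' →* Q)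
    (hf : Function.Injective f) (h : VPC Q) : VPC Q' := by
  obtain ⟨h1, S, hS, hsol⟩ := h
  refine ⟨fun H => fg_of_map_injective f hf H (h1 _), S.comap f, ?_, ?_⟩
  · rw [Subgroup.finiteIndex_iff, Subgroup.index_comap]
    exact (Subgroup.instFiniteIndex_subgroupOf S f.range).index_ne_zero
  · have hg : Function.Injective (f.subgroupComap S) := by
      intro x y hxy
      have : f x = f y := congrArg (fun z : S => (z : Q)) hxy
      exact Subtype.ext (hf this)
    have := hsol
    exact Group.isSolvable_of_isSolvable_injective hg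

theorem vpc_of_surjective {Q Q' : Type} [Group Q] [Group Q'] (f : Q →* Q')
    (hf : Function.Surjective f) (h : VPC Q) : VPC Q' := by
  obtain ⟨h1, S, hS, hsol⟩ := h
  refine ⟨fun H => ?_, S.map f, ?_, ?_⟩
  · have h2 : ((H.comap f).map f).FG := by
      have h3 := h1 (H.comap f)
      rw [Subgroup.fg_iff_submonoid_fg] at h3 ⊢
      exact h3.map f
    rwa [Subgroup.map_comap_eq_self_of_surjective hf] at h2
  · rw [Subgroup.finiteIndex_iff]
    have := Subgroup.index_map_dvd S hf
    intro h0
    rw [h0] at this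
    exact hS.index_ne_zero (Nat.eq_zero_of_zero_dvd this)
  · have hg : Function.Surjective (f.subgroupMap S) := f.subgroupMap_surjective S
    have := hsol
    exact Group.isSolvable_of_surjective hg

/-- Packet GV. -/
theorem gv : S_GV := by
  refine ⟨?_, ?_, ?_⟩
  · intro Q _ h M
    exact vpc_of_injective M.subtype (Subgroup.subtype_injective M) h
  · intro Q _ h K _
    exact vpc_of_surjective (QuotientGroup.mk' K) (QuotientGroup.mk'_surjective K) h
  · intro Q Q' _ _ e h
    exact vpc_of_surjective e.toMonoidHom e.surjective h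

/-- Packet ACC. -/
theorem acc : S_ACC := by
  intro Q _ h
  classical
  rw [wellFoundedGT_iff_monotone_chain_condition]
  intro f
  obtain ⟨T, hT⟩ := h.1 (⨆ n, f n)
  have hdir : Directed (· ≤ ·) (fun n => f n) := f.monotone.directed_le
  have hmem : ∀ x : Q, x ∈ (⨆ n, f n) ↔ ∃ n, x ∈ f n := fun x =>
    Subgroup.mem_iSup_of_directed hdir
  have hex : ∃ n, ∀ x ∈ T, x ∈ f n := by
    have hT' : ∀ x ∈ T, ∃ n, x ∈ f n := by
      intro x hx
      rw [← hmem, ← hT]
      exact Subgroup.subset_closure hx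
    clear hT
    induction T using Finset.induction_on with
    | empty => exact ⟨0, by simp⟩
    | insert a s ha ih =>
      obtain ⟨n, hn⟩ := ih (fun x hx => hT' x (Finset.mem_insert_of_mem hx))
      obtain ⟨m, hm⟩ := hT' a (Finset.mem_insert_self a s)
      refine ⟨max n m, ?_⟩
      intro x hx
      rcases Finset.mem_insert.1 hx with rfl | hx
      · exact f.monotone (le_max_right n m) hm
      · exact f.monotone (le_max_left n m) (hn x hx)
  obtain ⟨n, hn⟩ := hex
  refine ⟨n, fun m hm => le_antisymm (f.monotone hm) ?_⟩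
  refine le_trans (le_iSup (fun n => f n) m) ?_
  rw [← hT]
  exact (Subgroup.closure_le _).2 (fun x hx => hn x hx)

/-- The section `M / L` of `Q`, given a section `N / K` of `M₀ / L₀`. -/
theorem section_lift {Q : Type} [Group Q] (M L : Subgroup Q) [(L.subgroupOf M).Normal]
    (N : Subgroup (M ⧸ L.subgroupOf M)) (K : Subgroup N) [K.Normal] (hK : K ≠ ⊥) (hLM : L ≤ M) :
    ∃ (M' L' : Subgroup Q) (_ : (L'.subgroupOf M').Normal), L < L' ∧ L' ≤ M' ∧
      Nonempty (M' ⧸ (L'.subgroupOf M') ≃* N ⧸ K) := by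
  classical
  set p : M →* M ⧸ L.subgroupOf M := QuotientGroup.mk' (L.subgroupOf M) with hp
  set M1 : Subgroup M := N.comap p with hM1
  set L1 : Subgroup M := (K.map N.subtype).comap p with hL1
  set M' : Subgroup Q := M1.map M.subtype with hM'
  set L' : Subgroup Q := L1.map M.subtype with hL'
  have hL1M1 : L1 ≤ M1 := by
    intro x hx
    rw [hL1, Subgroup.mem_comap, Subgroup.mem_map] at hx
    obtain ⟨y, hy, hyx⟩ := hx
    rw [hM1, Subgroup.mem_comap, ← hyx]
    exact y.2
  have hle : L' ≤ M' := Subgroup.map_mono hL1M1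
  -- the homomorphism
  let eq : M1 ≃* M' := M1.equivMapOfInjective M.subtype (Subgroup.subtype_injective M)
  have heq : ∀ x : M1, ((eq x : M') : Q) = ((x : M) : Q) := by
    intro x
    rfl
  let g : M' →* N ⧸ K :=
    (QuotientGroup.mk' K).comp ((p.subgroupComap N).comp eq.symm.toMonoidHom)
  have hgs : Function.Surjective g := by
    intro z
    obtain ⟨w, rfl⟩ := QuotientGroup.mk'_surjective K z
    obtain ⟨v, hv⟩ := QuotientGroup.mk'_surjective (L.subgroupOf M) (w : M ⧸ L.subgroupOf M)
    have hvM1 : v ∈ M1 := by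
      rw [hM1, Subgroup.mem_comap, hp, hv]
      exact w.2
    refine ⟨eq ⟨v, hvM1⟩, ?_⟩
    show QuotientGroup.mk' K ((p.subgroupComap N) (eq.symm (eq ⟨v, hvM1⟩))) = _
    rw [MulEquiv.symm_apply_apply]
    congr 1
    exact Subtype.ext hv
  have hker : L'.subgroupOf M' = g.ker := by
    ext x
    obtain ⟨y, rfl⟩ := eq.surjective x
    rw [Subgroup.mem_subgroupOf, MonoidHom.mem_ker]
    have h1 : g (eq y) = QuotientGroup.mk' K ((p.subgroupComap N) y) := by
      show QuotientGroup.mk' K ((p.subgroupComap N) (eq.symm (eq y))) = _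
      rw [MulEquiv.symm_apply_apply]
    rw [h1, heq y, ← MonoidHom.mem_ker, QuotientGroup.ker_mk', hL', Subgroup.mem_map]
    constructor
    · rintro ⟨z, hz, hzy⟩
      have hz' : z = (y : M) := Subtype.ext hzy
      subst hz'
      rw [hL1, Subgroup.mem_comap, Subgroup.mem_map] at hz
      obtain ⟨w, hw, hwy⟩ := hz
      have : w = (p.subgroupComap N) y := Subtype.ext hwy
      rw [← this]
      exact hw
    · intro hy
      refine ⟨y, ?_, rfl⟩
      rw [hL1, Subgroup.mem_comap, Subgroup.mem_map]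
      exact ⟨_, hy, rfl⟩
  have hn : (L'.subgroupOf M').Normal := by
    rw [hker]
    infer_instance
  refine ⟨M', L', hn, ?_, hle, ?_⟩
  · refine lt_of_le_of_ne ?_ ?_
    · intro x hx
      rw [hL', Subgroup.mem_map]
      refine ⟨⟨x, hLM hx⟩, ?_, rfl⟩
      rw [hL1, Subgroup.mem_comap]
      have h1 : p ⟨x, hLM hx⟩ = 1 := by
        rw [hp, ← MonoidHom.mem_ker, QuotientGroup.ker_mk', Subgroup.mem_subgroupOf]
        exact hx
      rw [h1]
      exact Subgroup.one_mem _
    · intro hLL
      apply hK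
      rw [Subgroup.eq_bot_iff_forall]
      intro k hk
      obtain ⟨v, hv⟩ := QuotientGroup.mk'_surjective (L.subgroupOf M) (k : M ⧸ L.subgroupOf M)
      have hv1 : v ∈ L1 := by
        rw [hL1, Subgroup.mem_comap, Subgroup.mem_map]
        exact ⟨k, hk, hv.symm⟩
      have hv2 : (v : Q) ∈ L := by
        rw [hLL, hL', Subgroup.mem_map]
        exact ⟨v, hv1, rfl⟩
      have hv3 : v ∈ (QuotientGroup.mk' (L.subgroupOf M)).ker := by
        rw [QuotientGroup.ker_mk', Subgroup.mem_subgroupOf]
        exact hv2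
      rw [MonoidHom.mem_ker, hv] at hv3
      exact Subtype.ext hv3
  · exact ⟨(QuotientGroup.quotientMulEquivOfEq hker).trans
      (QuotientGroup.quotientKerEquivOfSurjective g hgs)⟩

/-- Packet GI. -/
theorem gi : S_GI := by
  intro P hiso hstep Q _ hQ
  have := acc Q hQ
  have key : ∀ L : Subgroup Q, ∀ M : Subgroup Q, L ≤ M → ∀ _ : (L.subgroupOf M).Normal,
      P (M ⧸ L.subgroupOf M) := by
    intro L
    induction L using WellFoundedGT.induction with
    | ind L ih =>
      intro M hLM hn
      have hV : VPC (M ⧸ L.subgroupOf M) := gv.2.1 _ (gv.1 Q hQ M) _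
      refine hstep _ hV ?_
      intro N K _ hK
      obtain ⟨M', L', hn', hlt, hle, ⟨e⟩⟩ := section_lift M L N K hK hLM
      exact hiso _ _ e (ih L' hlt M' hle hn')
  have h1 := key ⊥ ⊤ bot_le inferInstance
  have hb : (⊥ : Subgroup Q).subgroupOf ⊤ = ⊥ := by
    ext x
    rw [Subgroup.mem_subgroupOf, Subgroup.mem_bot, Subgroup.mem_bot]
    exact ⟨fun h => Subtype.ext h, fun h => by rw [h]; rfl⟩
  have e : ((⊤ : Subgroup Q) ⧸ (⊥ : Subgroup Q).subgroupOf ⊤) ≃* Q :=
    ((QuotientGroup.quotientMulEquivOfEq hb).trans QuotientGroup.quotientBot).trans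
      Subgroup.topEquiv
  exact hiso _ _ e h1

end Pool.Agent.Helper43.Uct
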