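import Pool.Agent.Helper39.Uct.Goals2
import Pool.Agent.Helper39.Uct.PF1

/-!
# Packet TI: quotients and ideals of weakly graded algebras
-/

open scoped ComplexOrder

namespace Pool.Agent.Helper43.Uct

open Pool.Agent.Helper39.Uct Fib

theorem cont_hom {A B : Type} [NonUnitalCStarAlgebra A] [NonUnitalCStarAlgebra B]
    (f : A →⋆ₙₐ[ℂ] B) : Continuous f :=
  AddMonoidHomClass.continuous_of_bound f 1
    (by simpa only [one_mul] using NonUnitalStarAlgHom.norm_apply_le f)

/-- The linear map underlying a star homomorphism. -/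
def lin {A B : Type} [NonUnitalCStarAlgebra A] [NonUnitalCStarAlgebra B]
    (f : A →⋆ₙₐ[ℂ] B) : A →ₗ[ℂ] B where
  toFun := f
  map_add' := map_add f
  map_smul' := map_smul f

/-- The image of a weak grading. -/
def mapFib {Q : Type} [Group Q] {A A' : Type} [NonUnitalCStarAlgebra A]
    [NonUnitalCStarAlgebra A'] (π : A →⋆ₙₐ[ℂ] A') (hπ : Function.Surjective π) (G : Fib Q A) :
    Fib Q A' where
  fib q := ((G.fib q).map (lin π)).topologicalClosure
  closed q := Submodule.isClosed_topologicalClosure _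
  mul_mem p q x y hx hy := by
    refine map_mem_closure₂ continuous_mul hx hy ?_
    rintro a ⟨a', ha', rfl⟩ b ⟨b', hb', rfl⟩
    exact ⟨a' * b', G.mul_mem p q a' b' ha' hb', map_mul π a' b'⟩
  star_mem q x hx := by
    refine map_mem_closure continuous_star hx ?_
    rintro a ⟨a', ha', rfl⟩
    exact ⟨star a', G.star_mem q a' ha', map_star π a'⟩
  dense := by
    rw [eq_top_iff]
    intro x _
    obtain ⟨y, rfl⟩ := hπ x
    have hy : y ∈ (⨆ q, G.fib q).topologicalClosure := by
      rw [G.dense]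
      trivial
    refine map_mem_closure (cont_hom π) hy ?_
    intro a ha
    have h1 : lin π a ∈ (⨆ q, G.fib q).map (lin π) := ⟨a, ha, rfl⟩
    rw [Submodule.map_iSup] at h1
    exact (iSup_mono fun q => Submodule.le_topologicalClosure _) h1

/-- Quotients of weakly graded algebras are weakly graded. -/
theorem tq (hRC : S_RC) : S_TQ := by
  intro A A' _ _ π hπ hA
  obtain ⟨Q, _, hQ, G, A₀, _, hI, ι, hι⟩ := hA
  refine ⟨Q, inferInstance, hQ, mapFib π hπ G, A₀, inferInstance, hI, π.comp ι, ?_⟩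
  have hcl := hRC A₀ A' (π.comp ι)
  have h1 : Set.range (π.comp ι) = ((G.fib 1).map (lin π) : Set A') := by
    ext x
    constructor
    · rintro ⟨a, rfl⟩
      have h2 : ι a ∈ (G.fib 1 : Set A) := by
        rw [← hι]
        exact ⟨a, rfl⟩
      exact ⟨ι a, h2, rfl⟩
    · rintro ⟨b, hb, rfl⟩
      rw [← hι] at hb
      obtain ⟨a, rfl⟩ := hb
      exact ⟨a, rfl⟩
  show Set.range (π.comp ι) = closure ((G.fib 1).map (lin π) : Set A')
  rw [← h1, hcl.closure_eq]

/-! ## Separability, commutants -/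

theorem sep_of_inj {A B : Type} [NonUnitalCStarAlgebra A] [NonUnitalCStarAlgebra B]
    [TopologicalSpace.SeparableSpace B] (f : A →⋆ₙₐ[ℂ] B) (hf : Function.Injective f) :
    TopologicalSpace.SeparableSpace A := by
  have h1 := NonUnitalStarAlgHom.isometry f hf
  have : SecondCountableTopology B := UniformSpace.secondCountable_of_separable B
  have : SecondCountableTopology A := h1.isEmbedding.secondCountableTopology
  infer_instance

theorem comm_closure_span {B : Type} [NonUnitalCStarAlgebra B] (S : Set B)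
    (hS : ∀ x ∈ S, ∀ y ∈ S, x * y = y * x) (x y : B)
    (hx : x ∈ closure (Submodule.span ℂ S : Set B))
    (hy : y ∈ closure (Submodule.span ℂ S : Set B)) : x * y = y * x := by
  have key : ∀ y : B, (∀ x ∈ S, x * y = y * x) →
      ∀ x ∈ closure (Submodule.span ℂ S : Set B), x * y = y * x := by
    intro y h x hx
    have hcl : IsClosed {x : B | x * y = y * x} :=
      isClosed_eq (continuous_id.mul continuous_const) (continuous_const.mul continuous_id)
    refine closure_minimal ?_ hcl hx
    intro w hw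
    induction hw using Submodule.span_induction with
    | mem w hw => exact h w hw
    | zero => simp
    | add a b _ _ ha hb =>
      show (a + b) * y = y * (a + b)
      rw [add_mul, mul_add]
      exact congrArg₂ (· + ·) ha hb
    | smul c a _ ha =>
      show (c • a) * y = y * (c • a)
      rw [smul_mul_assoc, mul_smul_comm]
      exact congrArg (c • ·) ha
  refine key y ?_ x hx
  intro x' hx'
  exact (key x' (fun y' hy' => hS y' hy' x' hx') y hy).symm

/-! ## The ideal generated by a hereditary subalgebra -/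

section ideal

variable {H B : Type} [NonUnitalCStarAlgebra H] [NonUnitalCStarAlgebra B] (ι : H →⋆ₙₐ[ℂ] B)

theorem mem_closure_uxu (x : H) : x ∈ closure {w : H | ∃ u : H, w = u * x * u} := by
  rw [Metric.mem_closure_iff]
  intro ε hε
  classical
  obtain ⟨e, -, hsa, hn, h⟩ := exists_au (⊤ : NonUnitalStarSubalgebra ℂ H)
    (by simp) {x, star x} (by simp) (ε / 2) (by positivity)
  refine ⟨e * x * e, ⟨e, rfl⟩, ?_⟩
  have h1 : ‖e * x - x‖ < ε / 2 := h x (by simp)
  have h2 : ‖x * e - x‖ < ε / 2 := by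
    have h3 := h (star x) (by simp)
    have h4 : x * e - x = star (e * star x - star x) := by
      rw [star_sub, star_mul, star_star, hsa.star_eq]
    rw [h4, norm_star]
    exact h3
  have h5 : x - e * x * e = -((e * x - x) * e) - (x * e - x) := by
    noncomm_ring
  rw [dist_eq_norm, h5]
  calc ‖-((e * x - x) * e) - (x * e - x)‖ ≤ ‖-((e * x - x) * e)‖ + ‖x * e - x‖ := norm_sub_le _ _
    _ = ‖(e * x - x) * e‖ + ‖x * e - x‖ := by rw [norm_neg]
    _ ≤ ‖e * x - x‖ * ‖e‖ + ‖x * e - x‖ := by gcongr; exact norm_mul_le _ _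
    _ ≤ ‖e * x - x‖ * 1 + ‖x * e - x‖ := by gcongr
    _ < ε := by linarith

/-- The span of `B · ι H · B`. -/
def genSpan : Submodule ℂ B :=
  Submodule.span ℂ {z : B | ∃ (a : B) (x : H) (b : B), z = a * ι x * b}

theorem gen_left (a z : B) (hz : z ∈ (genSpan ι).topologicalClosure) :
    a * z ∈ (genSpan ι).topologicalClosure := by
  have hc : Continuous (fun z : B => a * z) := continuous_const.mul continuous_id
  refine map_mem_closure hc hz ?_
  have h : genSpan ι ≤ (genSpan ι).comap (LinearMap.mulLeft ℂ a) := by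
    refine Submodule.span_le.2 ?_
    rintro w ⟨b, x, c, rfl⟩
    refine Submodule.subset_span ⟨a * b, x, c, ?_⟩
    simp [mul_assoc]
  exact fun w hw => h hw

theorem gen_right (a z : B) (hz : z ∈ (genSpan ι).topologicalClosure) :
    z * a ∈ (genSpan ι).topologicalClosure := by
  have hc : Continuous (fun z : B => z * a) := continuous_id.mul continuous_const
  refine map_mem_closure (f := fun z : B => z * a) hc hz ?_
  have h : genSpan ι ≤ (genSpan ι).comap (LinearMap.mulRight ℂ a) := by
    refine Submodule.span_le.2 ?_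
    rintro w ⟨b, x, c, rfl⟩
    refine Submodule.subset_span ⟨b, x, c * a, ?_⟩
    simp [mul_assoc]
  exact fun w hw => h hw

theorem gen_star (z : B) (hz : z ∈ (genSpan ι).topologicalClosure) :
    star z ∈ (genSpan ι).topologicalClosure := by
  refine map_mem_closure continuous_star hz ?_
  intro w hw
  change w ∈ genSpan ι at hw
  show star w ∈ genSpan ι
  unfold genSpan at hw
  induction hw using Submodule.span_induction with
  | mem w hw =>
    obtain ⟨b, x, c, rfl⟩ := hw
    refine Submodule.subset_span ⟨star c, star x, star b, ?_⟩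
    rw [star_mul, star_mul, map_star, mul_assoc]
  | zero => rw [star_zero]; exact Submodule.zero_mem _
  | add a b _ _ ha hb => rw [star_add]; exact Submodule.add_mem _ ha hb
  | smul c a _ ha => rw [star_smul]; exact Submodule.smul_mem _ _ ha

/-- The closed ideal generated by `ι H` as a star subalgebra. -/
def idealAlg : NonUnitalStarSubalgebra ℂ B where
  carrier := (genSpan ι).topologicalClosure
  add_mem' := fun ha hb => (genSpan ι).topologicalClosure.add_mem ha hb
  zero_mem' := (genSpan ι).topologicalClosure.zero_mem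
  mul_mem' := fun {a b} _ hb => gen_left ι a b hb
  smul_mem' := fun c _ hx => (genSpan ι).topologicalClosure.smul_mem c hx
  star_mem' := fun {a} ha => gen_star ι a ha

theorem mem_idealAlg (x : B) : x ∈ idealAlg ι ↔ x ∈ (genSpan ι).topologicalClosure := Iff.rfl

theorem isClosed_idealAlg : IsClosed (idealAlg ι : Set B) :=
  Submodule.isClosed_topologicalClosure _

theorem range_mem_idealAlg (x : H) : ι x ∈ idealAlg ι := by
  rw [mem_idealAlg]
  refine map_mem_closure (cont_hom ι) (mem_closure_uxu x) ?_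
  rintro w ⟨u, rfl⟩
  exact Submodule.subset_span ⟨ι u, x, ι u, by rw [map_mul, map_mul]⟩

/-- The closed ideal generated by a nonzero hereditary subalgebra of the class is in the
class. -/
theorem ideal_mem {𝒞 : ∀ (A : Type) [NonUnitalCStarAlgebra A], Prop} (h𝒞 : UctLike 𝒞)
    [TopologicalSpace.SeparableSpace B] (hι : Hered ι) (hn : Nontrivial H) (hH : 𝒞 H) :
    ∃ (J : Type) (_ : NonUnitalCStarAlgebra J) (j : J →⋆ₙₐ[ℂ] B),
      IdealEmb j ∧ Nontrivial J ∧ 𝒞 J := by
  have : IsClosed (idealAlg ι : Set B) := isClosed_idealAlg ι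
  let j : idealAlg ι →⋆ₙₐ[ℂ] B := NonUnitalStarSubalgebraClass.subtype (idealAlg ι)
  have hj : Function.Injective j := Subtype.val_injective
  have hsep : TopologicalSpace.SeparableSpace (idealAlg ι) := sep_of_inj j hj
  let κ : H →⋆ₙₐ[ℂ] idealAlg ι :=
    NonUnitalStarAlgHom.codRestrict ι (idealAlg ι) (range_mem_idealAlg ι)
  have hκ : ∀ x, ((κ x : idealAlg ι) : B) = ι x := fun x => rfl
  have hκinj : Function.Injective κ := by
    intro x y hxy
    exact hι.1 (by rw [← hκ x, ← hκ y, hxy])
  have hκH : Hered κ := by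
    refine ⟨hκinj, fun x y a => ?_⟩
    obtain ⟨z, hz⟩ := hι.2 x y (a : B)
    refine ⟨z, Subtype.ext ?_⟩
    rw [hκ z, hz]
    rfl
  have hκF : Full κ := by
    rw [Full, eq_top_iff]
    intro z _
    set T : Submodule ℂ (idealAlg ι) := Submodule.span ℂ
      {z : idealAlg ι | ∃ (a : idealAlg ι) (x : H) (b : idealAlg ι), z = a * κ x * b} with hT
    show z ∈ closure (T : Set (idealAlg ι))
    rw [closure_subtype]
    have h1 : genSpan ι ≤ (T.map (lin j)).topologicalClosure := by
      refine Submodule.span_le.2 ?_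
      rintro w ⟨a, x, b, rfl⟩
      have hc : Continuous (fun w : H => a * ι w * b) :=
        (continuous_const.mul (cont_hom ι)).mul continuous_const
      refine map_mem_closure (f := fun w : H => a * ι w * b) hc (mem_closure_uxu x) ?_
      rintro w ⟨u, rfl⟩
      have ha : a * ι u ∈ idealAlg ι := gen_left ι a _ (range_mem_idealAlg ι u)
      have hb : ι u * b ∈ idealAlg ι := gen_right ι b _ (range_mem_idealAlg ι u)
      refine ⟨⟨a * ι u, ha⟩ * κ x * ⟨ι u * b, hb⟩, ?_, ?_⟩
      · exact Submodule.subset_span ⟨_, x, _, rfl⟩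
      · show (a * ι u) * ι x * (ι u * b) = a * ι (u * x * u) * b
        rw [map_mul, map_mul]
        simp only [mul_assoc]
    have h2 : (genSpan ι).topologicalClosure ≤ (T.map (lin j)).topologicalClosure :=
      Submodule.topologicalClosure_minimal _ h1 (Submodule.isClosed_topologicalClosure _)
    exact h2 z.2
  refine ⟨idealAlg ι, inferInstance, j, ⟨hj, ?_⟩, ?_, ?_⟩
  · intro x a
    exact ⟨⟨⟨a * (x : B), gen_left ι a _ x.2⟩, rfl⟩, ⟨⟨(x : B) * a, gen_right ι a _ x.2⟩, rfl⟩⟩
  · exact hκinj.nontrivial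
  · exact h𝒞.morita H (idealAlg ι) κ hκH hκF hH

end ideal

/-- A weakly graded algebra has a nonzero unit fibre. -/
theorem exists_unit_ne_zero {Q : Type} [Group Q] {B : Type} [NonUnitalCStarAlgebra B]
    (G : Fib Q B) (hB : Nontrivial B) : ∃ c ∈ G.fib 1, c ≠ 0 := by
  by_contra hcon
  push Not at hcon
  have h1 : ∀ q, G.fib q = ⊥ := by
    intro q
    rw [Submodule.eq_bot_iff]
    intro b hb
    have h2 := hcon _ (smem G hb hb)
    rwa [CStarRing.star_mul_self_eq_zero_iff] at h2
  have h2 : (⨆ q, G.fib q) = ⊥ := by simp [h1]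
  have h3 := G.dense
  rw [h2] at h3
  obtain ⟨x, hx⟩ := exists_ne (0 : B)
  have h4 : x ∈ (⊥ : Submodule ℂ B).topologicalClosure := by
    rw [h3]
    trivial
  apply hx
  have h5 : x ∈ closure ((⊥ : Submodule ℂ B) : Set B) := h4
  simpa using h5

/-- Packet TI. -/
theorem ti (hRG : S_RG) (hHT : S_HT) (hMT : S_MT) : S_TI := by
  intro 𝒞 h𝒞 A _ _ hA hn
  obtain ⟨Q, _, hQ, G, A₀, _, hI, ι₀, hι₀⟩ := hA
  have hcl : IsClosed (unitAlg G : Set A) := G.closed 1
  obtain ⟨c, hc, hc0⟩ := exists_unit_ne_zero G hn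
  -- the abelian element
  have hmem : ∀ x, ι₀ x ∈ unitAlg G := by
    intro x
    show ι₀ x ∈ (G.fib 1 : Set A)
    rw [← hι₀]
    exact ⟨x, rfl⟩
  let π₀ : A₀ →⋆ₙₐ[ℂ] unitAlg G := NonUnitalStarAlgHom.codRestrict ι₀ (unitAlg G) hmem
  have hπ₀ : Function.Surjective π₀ := by
    intro z
    have hz : (z : A) ∈ (G.fib 1 : Set A) := z.2
    rw [← hι₀] at hz
    obtain ⟨x, hx⟩ := hz
    exact ⟨x, Subtype.ext hx⟩
  have hnt : Nontrivial (unitAlg G) := by
    refine ⟨⟨⟨c, hc⟩, 0, ?_⟩⟩
    intro h
    exact hc0 (congrArg Subtype.val h)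
  obtain ⟨a, hasa, ha0, hacomm⟩ := hI (unitAlg G) π₀ hπ₀ hnt
  have hesa : IsSelfAdjoint (a : A) := congrArg Subtype.val hasa.star_eq
  have he0 : (a : A) ≠ 0 := fun h => ha0 (Subtype.ext h)
  have hea : (a : A) ∈ G.fib 1 := a.2
  obtain ⟨H, _, ι, hι, hHn, -, G', hG'⟩ := hRG Q A G ⊤ Q (⊤ : Subgroup Q).subtype (a : A) hesa he0
    (fun q hq => absurd (Subgroup.mem_top q) hq) (by
      have h1 : G.fib 1 ≤ ⨆ k : ((⊤ : Subgroup Q).subtype).ker,
          G.fib ((k : (⊤ : Subgroup Q)) : Q) :=
        le_iSup (fun k : ((⊤ : Subgroup Q).subtype).ker =>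
          G.fib ((k : (⊤ : Subgroup Q)) : Q)) 1
      exact Submodule.le_topologicalClosure _ (h1 hea))
  have hcomm : G'.Comm := by
    intro x hx y hy
    rw [hG'] at hx hy
    apply hι.1
    rw [map_mul, map_mul]
    refine comm_closure_span _ ?_ _ _ hx hy
    rintro u ⟨q, hq, b, hb, rfl⟩ v ⟨q', hq', b', hb', rfl⟩
    have hq1 : (q : Q) = 1 := hq
    have hq1' : (q' : Q) = 1 := hq'
    rw [hq1] at hb
    rw [hq1'] at hb'
    exact congrArg Subtype.val (hacomm ⟨b, hb⟩ ⟨b', hb'⟩)
  obtain ⟨H', _, ι', hι', hHn', Q'', _, hQ'', G'', hG''c, hG''t⟩ := hMT Q hQ H G' hcomm hHn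
  have hher : Hered (ι.comp ι') := hHT H' H A ι' ι hι' hι
  have hsep : TopologicalSpace.SeparableSpace H' := sep_of_inj (ι.comp ι') hher.1
  exact ideal_mem (ι.comp ι') h𝒞 hher hHn' (h𝒞.graded H' Q'' hQ'' G'' hG''c hG''t)

end Pool.Agent.Helper43.Uct
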